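import Mathlib

/-!
Local continuity of the roots of a polynomial whose coefficients are polynomials in `z`.
-/

set_option autoImplicit false

namespace Pool.Agent.W488.T2

open Polynomial Metric Set Topology Filter

variable {k : ℕ}

/-- value of `G(z, t)` -/
noncomputable def Φ (G : Polynomial (MvPolynomial (Fin k) ℂ)) (p : (Fin k → ℂ) × ℂ) : ℂ :=
  (G.map (MvPolynomial.eval p.1)).eval p.2

theorem Φ_eq (G : Polynomial (MvPolynomial (Fin k) ℂ)) (p : (Fin k → ℂ) × ℂ) :
    Φ G p = ∑ j ∈ Finset.range (G.natDegree + 1), MvPolynomial.eval p.1 (G.coeff j) * p.2 ^ j := by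
  rw [Φ, Polynomial.eval_map, Polynomial.eval₂_eq_sum_range]

theorem Φ_analytic (G : Polynomial (MvPolynomial (Fin k) ℂ)) (p : (Fin k → ℂ) × ℂ) :
    AnalyticAt ℂ (Φ G) p := by
  have : Φ G = fun p => ∑ j ∈ Finset.range (G.natDegree + 1),
      MvPolynomial.eval p.1 (G.coeff j) * p.2 ^ j := funext (Φ_eq G)
  rw [this]
  refine Finset.analyticAt_fun_sum _ fun j _ => ?_
  refine AnalyticAt.mul ?_ (analyticAt_snd.pow j)
  have h1 := AnalyticOnNhd.eval_mvPolynomial (𝕜 := ℂ) (G.coeff j) p.1 (mem_univ _)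
  exact h1.comp analyticAt_fst

theorem isInvertible_of_ne (L : ℂ →L[ℂ] ℂ) (h : L 1 ≠ 0) : L.IsInvertible := by
  refine ⟨ContinuousLinearEquiv.unitsEquivAut ℂ (Units.mk0 (L 1) h), ?_⟩
  ext
  simp

theorem local_roots (G : Polynomial (MvPolynomial (Fin k) ℂ)) (z₀ : Fin k → ℂ)
    (hlc : MvPolynomial.eval z₀ G.leadingCoeff ≠ 0)
    (hsep : (G.map (MvPolynomial.eval z₀)).Separable) :
    ∃ (N : ℕ) (b : Fin N → (Fin k → ℂ) → ℂ), ∀ᶠ z in 𝓝 z₀, (∀ i, ContinuousAt (b i) z) ∧
      Function.Injective (fun i => b i z) ∧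
      ∀ t : ℂ, (G.map (MvPolynomial.eval z)).eval t = 0 ↔ ∃ i, t = b i z := by
  classical
  set g := G.map (MvPolynomial.eval z₀) with hg
  have hdeg : g.natDegree = G.natDegree :=
    Polynomial.natDegree_map_of_leadingCoeff_ne_zero _ hlc
  have hg0 : g ≠ 0 := hsep.ne_zero
  have hcard : Multiset.card g.roots = g.natDegree :=
    (Polynomial.splits_iff_card_roots).mp (IsAlgClosed.splits g)
  have hnodup : g.roots.Nodup := Polynomial.nodup_roots hsep
  have hcard' : g.roots.toFinset.card = g.natDegree := by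
    rw [Multiset.toFinset_card_of_nodup hnodup, hcard]
  let e : Fin g.natDegree ≃ g.roots.toFinset := (Finset.equivFinOfCardEq hcard').symm
  have hroot : ∀ i, g.eval (e i : ℂ) = 0 := by
    intro i
    have := (e i).2
    rw [Multiset.mem_toFinset, Polynomial.mem_roots hg0] at this
    exact this
  -- partial derivative
  have hcd : ∀ p, ContDiffAt ℂ 1 (Φ G) p := fun p => (Φ_analytic G p).contDiffAt
  have hinv : ∀ i, (fderiv ℂ (Φ G) (z₀, (e i : ℂ)) ∘L .inr ℂ (Fin k → ℂ) ℂ).IsInvertible := by
    intro i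
    apply isInvertible_of_ne
    have h1 : HasFDerivAt (Φ G) (fderiv ℂ (Φ G) (z₀, (e i : ℂ))) (z₀, (e i : ℂ)) :=
      ((hcd (z₀, (e i : ℂ))).differentiableAt one_ne_zero).hasFDerivAt
    have h2 : HasFDerivAt (fun t : ℂ => (z₀, t)) (ContinuousLinearMap.inr ℂ (Fin k → ℂ) ℂ) (e i : ℂ) :=
      hasFDerivAt_prodMk_right z₀ (e i : ℂ)
    have h3 := h1.comp (e i : ℂ) h2
    have h4 : (Φ G ∘ fun t : ℂ => (z₀, t)) = fun t => g.eval t := by
      funext t; rfl
    rw [h4] at h3
    have h5 := h3.hasDerivAt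
    have h6 := h5.unique (g.hasDerivAt (e i : ℂ))
    rw [h6]
    obtain ⟨u, v, huv⟩ := hsep
    intro h7
    have := congrArg (Polynomial.eval (e i : ℂ)) huv
    rw [eval_add, eval_mul, eval_mul, hroot i, h7, mul_zero, mul_zero, add_zero, eval_one] at this
    exact zero_ne_one this
  set ψ : Fin g.natDegree → (Fin k → ℂ) → ℂ := fun i =>
    (hcd (z₀, (e i : ℂ))).implicitFunction one_ne_zero (hinv i) with hψ
  have hψ0 : ∀ i, ψ i z₀ = (e i : ℂ) := fun i =>
    (hcd (z₀, (e i : ℂ))).implicitFunction_apply_self one_ne_zero (hinv i)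
  have hψz : ∀ i, ∀ᶠ z in 𝓝 z₀, Φ G (z, ψ i z) = 0 := by
    intro i
    have := (hcd (z₀, (e i : ℂ))).eventually_apply_implicitFunction one_ne_zero (hinv i)
    filter_upwards [this] with z hz
    rw [hψ]
    simp only
    rw [hz]
    exact hroot i
  have hψc : ∀ i, ∀ᶠ z in 𝓝 z₀, ContinuousAt (ψ i) z := by
    intro i
    have := (hcd (z₀, (e i : ℂ))).contDiffAt_implicitFunction one_ne_zero (hinv i)
    have h2 := this.eventually (by simp)
    filter_upwards [h2] with z hz
    exact hz.continuousAt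
  have hne : ∀ i j, i ≠ j → ∀ᶠ z in 𝓝 z₀, ψ i z ≠ ψ j z := by
    intro i j hij
    have hci : ContinuousAt (ψ i) z₀ := (hψc i).self_of_nhds
    have hcj : ContinuousAt (ψ j) z₀ := (hψc j).self_of_nhds
    have : ψ i z₀ ≠ ψ j z₀ := by
      rw [hψ0, hψ0]
      intro h
      exact hij (e.injective (Subtype.ext h))
    exact (hci.ne_iff_eventually_ne hcj).mp this
  have hlc' : ∀ᶠ z in 𝓝 z₀, MvPolynomial.eval z G.leadingCoeff ≠ 0 := by
    have hc : ContinuousAt (fun z => MvPolynomial.eval z G.leadingCoeff) z₀ :=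
      (MvPolynomial.continuous_eval _).continuousAt
    exact hc.eventually_ne hlc
  refine ⟨g.natDegree, ψ, ?_⟩
  have e1 := eventually_all.mpr hψz
  have e2 := eventually_all.mpr hψc
  have e3 : ∀ᶠ z in 𝓝 z₀, ∀ i j, i ≠ j → ψ i z ≠ ψ j z := by
    rw [eventually_all]
    intro i
    rw [eventually_all]
    intro j
    by_cases hij : i = j
    · exact Eventually.of_forall fun z h => absurd hij h
    · filter_upwards [hne i j hij] with z hz _
      exact hz
  filter_upwards [e1, e2, e3, hlc'] with z h1 h2 h3 h4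
  have hinj : Function.Injective (fun i => ψ i z) := by
    intro i j hij
    by_contra hne
    exact h3 i j hne hij
  refine ⟨h2, hinj, fun t => ⟨fun ht => ?_, ?_⟩⟩
  · have hgz : G.map (MvPolynomial.eval z) ≠ 0 := by
      intro h0
      have h5 := Polynomial.natDegree_map_of_leadingCoeff_ne_zero _ h4
      have h6 : (G.map (MvPolynomial.eval z)).coeff G.natDegree = MvPolynomial.eval z G.leadingCoeff := by
        rw [Polynomial.coeff_map]; rfl
      rw [h0, Polynomial.coeff_zero] at h6
      exact h4 h6.symm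
    by_contra hcon
    push Not at hcon
    -- too many roots
    have hsub : (Finset.univ.image (fun i => ψ i z)) ∪ {t} ⊆ (G.map (MvPolynomial.eval z)).roots.toFinset := by
      intro x hx
      rw [Multiset.mem_toFinset, Polynomial.mem_roots hgz]
      rcases Finset.mem_union.mp hx with hx | hx
      · obtain ⟨i, _, rfl⟩ := Finset.mem_image.mp hx
        exact h1 i
      · rw [Finset.mem_singleton] at hx
        rw [hx]
        exact ht
    have hc1 := Finset.card_le_card hsub
    have hdisj : Disjoint (Finset.univ.image (fun i => ψ i z)) {t} := by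
      rw [Finset.disjoint_singleton_right]
      intro hx
      obtain ⟨i, _, hi⟩ := Finset.mem_image.mp hx
      exact hcon i hi.symm
    rw [Finset.card_union_of_disjoint hdisj, Finset.card_image_of_injective _ hinj,
      Finset.card_univ, Fintype.card_fin, Finset.card_singleton] at hc1
    have hc2 : (G.map (MvPolynomial.eval z)).roots.toFinset.card ≤ g.natDegree := by
      calc (G.map (MvPolynomial.eval z)).roots.toFinset.card
          ≤ Multiset.card (G.map (MvPolynomial.eval z)).roots := Multiset.toFinset_card_le _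
        _ ≤ (G.map (MvPolynomial.eval z)).natDegree := Polynomial.card_roots' _
        _ ≤ G.natDegree := Polynomial.natDegree_map_le
        _ = g.natDegree := hdeg.symm
    omega
  · rintro ⟨i, rfl⟩
    exact h1 i

end Pool.Agent.W488.T2
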