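import Mathlib

/-!
Square-free part of a polynomial over a domain of characteristic zero, with cleared denominators.
-/

set_option autoImplicit false

namespace Pool.Agent.W488.T2

open Polynomial

theorem clear_den {A K : Type*} [CommRing A] [IsDomain A] [Field K] [Algebra A K]
    [IsFractionRing A K] (P : K[X]) :
    ∃ (b : A) (Q : A[X]), b ≠ 0 ∧ Q.map (algebraMap A K) = C (algebraMap A K b) * P := by
  obtain ⟨b, hb⟩ := IsLocalization.integerNormalization_map_to_map (nonZeroDivisors A) P
  refine ⟨b, IsLocalization.integerNormalization (nonZeroDivisors A) P,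
    nonZeroDivisors.ne_zero b.2, ?_⟩
  rw [hb, Polynomial.C_mul', Algebra.smul_def]
  ext n
  simp [Polynomial.coeff_smul, Submonoid.smul_def, Algebra.smul_def]

theorem exists_squarefree_part {A : Type*} [CommRing A] [IsDomain A] [CharZero A] (F : A[X])
    (hF : F ≠ 0) :
    ∃ (G U V H H' : A[X]) (c₁ c₂ c₃ : A) (n : ℕ), G ≠ 0 ∧ c₁ ≠ 0 ∧ c₂ ≠ 0 ∧ c₃ ≠ 0 ∧
      C c₁ * G ^ n = F * H ∧ C c₂ * F = G * H' ∧ U * G + V * derivative G = C c₃ := by
  classical
  let K := FractionRing A
  have hinj : Function.Injective (algebraMap A K) := IsFractionRing.injective A K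
  have hminj : Function.Injective (Polynomial.map (algebraMap A K)) :=
    Polynomial.map_injective _ hinj
  haveI : CharZero K := charZero_of_injective_algebraMap hinj
  set FK : K[X] := F.map (algebraMap A K) with hFK
  have hFK0 : FK ≠ 0 := by
    intro h
    apply hF
    apply hminj
    rw [Polynomial.map_zero]
    exact h
  set P := UniqueFactorizationMonoid.radical FK with hP
  have hPsq : Squarefree P := UniqueFactorizationMonoid.squarefree_radical
  have hPsep : P.Separable := PerfectField.separable_iff_squarefree.mpr hPsq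
  obtain ⟨U0, V0, hUV⟩ := hPsep
  obtain ⟨n, R, hR⟩ := UniqueFactorizationMonoid.exists_dvd_radical_self_pow hFK0
  obtain ⟨Q, hQ⟩ := UniqueFactorizationMonoid.radical_dvd_self (a := FK)
  obtain ⟨b, G, hb, hG⟩ := clear_den (A := A) P
  obtain ⟨b2, U, hb2, hU⟩ := clear_den (A := A) U0
  obtain ⟨b2', V, hb2', hV⟩ := clear_den (A := A) V0
  obtain ⟨b3, Q3, hb3, hQ3⟩ := clear_den (A := A) Q
  obtain ⟨b4, R4, hb4, hR4⟩ := clear_den (A := A) R
  have hbK : (algebraMap A K) b ≠ 0 := fun h => hb (hinj (by rw [h, map_zero]))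
  refine ⟨G, C b2' * U, C b2 * V, C (b ^ n) * R4, Q3, b4, b * b3, b2 * b2' * b, n, ?_, hb4,
    mul_ne_zero hb hb3, mul_ne_zero (mul_ne_zero hb2 hb2') hb, ?_, ?_, ?_⟩
  · intro h0
    rw [h0, Polynomial.map_zero] at hG
    have := mul_ne_zero (Polynomial.C_ne_zero.mpr hbK) (UniqueFactorizationMonoid.radical_ne_zero (a := FK))
    exact this hG.symm
  · apply hminj
    simp only [Polynomial.map_mul, Polynomial.map_pow, Polynomial.map_C, hG, hR4, map_pow]
    rw [← hP] at hR
    rw [mul_pow, hR]
    ring
  · apply hminj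
    simp only [Polynomial.map_mul, Polynomial.map_C, hG, hQ3, map_mul]
    rw [← hP] at hQ
    rw [← hFK]
    conv_lhs => rw [hQ]
    ring
  · apply hminj
    simp only [Polynomial.map_mul, Polynomial.map_add, Polynomial.map_C, map_mul,
      ← Polynomial.derivative_map]
    rw [hG, hU, hV, derivative_C_mul]
    linear_combination (C ((algebraMap A K) b2) * C ((algebraMap A K) b2') * C ((algebraMap A K) b)) * hUV

end Pool.Agent.W488.T2
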