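import Pool.Agent.W489.Stubs
import Pool.Agent.W488.T2.Sqf
import Pool.Agent.W488.T2.Roots

set_option autoImplicit false

namespace Pool.Agent.W488.T2

open Polynomial Metric Set Topology Filter

theorem s_T2 : W489.S_T2 := by
  classical
  intro k δ hδ
  -- the polynomial `F (z, t) = δ (t z)`
  set F : Polynomial (MvPolynomial (Fin k) ℂ) :=
    MvPolynomial.aeval (fun i => Polynomial.C (MvPolynomial.X i) * Polynomial.X) δ with hF
  have hFz : ∀ (z : Fin k → ℂ) (t : ℂ),
      (F.map (MvPolynomial.eval z)).eval t = MvPolynomial.eval (t • z) δ := by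
    intro z t
    have h1 : ((Polynomial.evalRingHom t).comp ((Polynomial.mapRingHom (MvPolynomial.eval z)).comp
        (MvPolynomial.aeval (fun i => Polynomial.C (MvPolynomial.X i) * Polynomial.X) :
          MvPolynomial (Fin k) ℂ →ₐ[ℂ] Polynomial (MvPolynomial (Fin k) ℂ)).toRingHom)) =
        MvPolynomial.eval (t • z) := by
      apply MvPolynomial.ringHom_ext
      · intro c
        have : (MvPolynomial.aeval (fun i : Fin k => Polynomial.C (MvPolynomial.X i) * Polynomial.X) :
          MvPolynomial (Fin k) ℂ →ₐ[ℂ] Polynomial (MvPolynomial (Fin k) ℂ)) (MvPolynomial.C c) =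
            Polynomial.C (MvPolynomial.C c) := by
          rw [MvPolynomial.aeval_C]; rfl
        show Polynomial.eval t (Polynomial.map (MvPolynomial.eval z) ((MvPolynomial.aeval (fun i : Fin k => Polynomial.C (MvPolynomial.X i) * Polynomial.X) :
          MvPolynomial (Fin k) ℂ →ₐ[ℂ] Polynomial (MvPolynomial (Fin k) ℂ)) (MvPolynomial.C c))) = _
        rw [this, Polynomial.map_C, Polynomial.eval_C, MvPolynomial.eval_C, MvPolynomial.eval_C]
      · intro i
        show Polynomial.eval t (Polynomial.map (MvPolynomial.eval z) ((MvPolynomial.aeval (fun i : Fin k => Polynomial.C (MvPolynomial.X i) * Polynomial.X) :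
          MvPolynomial (Fin k) ℂ →ₐ[ℂ] Polynomial (MvPolynomial (Fin k) ℂ)) (MvPolynomial.X i))) = _
        rw [MvPolynomial.aeval_X, Polynomial.map_mul, Polynomial.map_C, Polynomial.map_X,
          Polynomial.eval_mul, Polynomial.eval_C, Polynomial.eval_X, MvPolynomial.eval_X,
          MvPolynomial.eval_X, Pi.smul_apply, smul_eq_mul, mul_comm]
    exact congrArg (fun f : MvPolynomial (Fin k) ℂ →+* ℂ => f δ) h1
  have hF0 : F ≠ 0 := by
    intro h0
    have := hFz 0 0
    rw [h0, Polynomial.map_zero, Polynomial.eval_zero, smul_zero] at this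
    exact hδ this.symm
  obtain ⟨G, U, V, H, H', c₁, c₂, c₃, n, hG, h1, h2, h3, e1, e2, e3⟩ := exists_squarefree_part F hF0
  refine ⟨c₁ * c₂ * c₃ * G.leadingCoeff, mul_ne_zero (mul_ne_zero (mul_ne_zero h1 h2) h3)
    (Polynomial.leadingCoeff_ne_zero.mpr hG), fun z hz => ?_⟩
  -- zero sets agree
  have hzero : ∀ z : Fin k → ℂ, MvPolynomial.eval z (c₁ * c₂ * c₃ * G.leadingCoeff) ≠ 0 → ∀ t : ℂ,
      (MvPolynomial.eval (t • z) δ = 0 ↔ (G.map (MvPolynomial.eval z)).eval t = 0) := by
    intro z hz t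
    rw [map_mul, map_mul, map_mul] at hz
    have hz1 : MvPolynomial.eval z c₁ ≠ 0 := left_ne_zero_of_mul (left_ne_zero_of_mul (left_ne_zero_of_mul hz))
    have hz2 : MvPolynomial.eval z c₂ ≠ 0 := right_ne_zero_of_mul (left_ne_zero_of_mul (left_ne_zero_of_mul hz))
    rw [← hFz]
    have e1' := congrArg (fun P : Polynomial (MvPolynomial (Fin k) ℂ) =>
      (P.map (MvPolynomial.eval z)).eval t) e1
    have e2' := congrArg (fun P : Polynomial (MvPolynomial (Fin k) ℂ) =>
      (P.map (MvPolynomial.eval z)).eval t) e2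
    simp only [Polynomial.map_mul, Polynomial.map_pow, Polynomial.map_C, Polynomial.eval_mul,
      Polynomial.eval_pow, Polynomial.eval_C] at e1' e2'
    constructor
    · intro h
      rw [h, zero_mul] at e1'
      rcases mul_eq_zero.mp e1' with h' | h'
      · exact absurd h' hz1
      · exact eq_zero_of_pow_eq_zero h'
    · intro h
      rw [h, zero_mul] at e2'
      rcases mul_eq_zero.mp e2' with h' | h'
      · exact absurd h' hz2
      · exact h'
  have hz' := hz
  rw [map_mul, map_mul, map_mul] at hz'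
  have hz3 : MvPolynomial.eval z c₃ ≠ 0 := right_ne_zero_of_mul (left_ne_zero_of_mul hz')
  have hz4 : MvPolynomial.eval z G.leadingCoeff ≠ 0 := right_ne_zero_of_mul hz'
  have hsep : (G.map (MvPolynomial.eval z)).Separable := by
    have e3' := congrArg (fun P : Polynomial (MvPolynomial (Fin k) ℂ) =>
      (P.map (MvPolynomial.eval z))) e3
    simp only [Polynomial.map_mul, Polynomial.map_add, Polynomial.map_C,
      ← Polynomial.derivative_map] at e3'
    refine ⟨C (MvPolynomial.eval z c₃)⁻¹ * U.map (MvPolynomial.eval z),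
      C (MvPolynomial.eval z c₃)⁻¹ * V.map (MvPolynomial.eval z), ?_⟩
    rw [mul_assoc, mul_assoc, ← mul_add, e3', ← C_mul, inv_mul_cancel₀ hz3, C_1]
  obtain ⟨N, b, hb⟩ := local_roots G z hz4 hsep
  have hD : ∀ᶠ z' in 𝓝 z, MvPolynomial.eval z' (c₁ * c₂ * c₃ * G.leadingCoeff) ≠ 0 :=
    (MvPolynomial.continuous_eval _).continuousAt.eventually_ne hz
  obtain ⟨ε, hε, hball⟩ := Metric.eventually_nhds_iff_ball.mp (hb.and hD)
  refine ⟨N, ε, b, hε, fun i z' hz' => ((hball z' hz').1.1 i).continuousWithinAt, fun z' hz' =>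
    ⟨(hball z' hz').1.2.1, fun t => ?_⟩⟩
  rw [hzero z' (hball z' hz').2 t]
  exact (hball z' hz').1.2.2 t

end Pool.Agent.W488.T2
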